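import Pool.Agent.Helper78.AL.Alt

/-! # Ranks of rational subspaces: a sequence with prescribed generic ranks -/

set_option autoImplicit false
set_option maxHeartbeats 1000000

namespace Pool.Agent.Helper78.AL

open Pool.Agent.Helper78.EC.Use Set Polynomial Module

theorem r_mono {r : ℕ → ℕ} (hr : ∀ d, r d ≤ r (d + 1) ∧ r (d + 1) ≤ r d + 1) : Monotone r :=
  monotone_nat_of_le_succ fun d => (hr d).1

/-- the first index with a given value of `r` -/
theorem first {r : ℕ → ℕ} (hr0 : r 0 = 0) (hr : ∀ d, r d ≤ r (d + 1) ∧ r (d + 1) ≤ r d + 1) (k : ℕ) :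
    ∃ α : Fin (r k) → Fin k, StrictMono α ∧ ∀ m : Fin (r k), (m : ℕ) < r ((α m : ℕ) + 1) := by
  classical
  have hk : ∀ m : Fin (r k), k ≠ 0 := by
    intro m h
    subst h
    have := m.2
    omega
  have hex : ∀ m : Fin (r k), ∃ a, (m : ℕ) < r (a + 1) := by
    intro m
    refine ⟨k - 1, ?_⟩
    rw [Nat.sub_add_cancel (Nat.pos_of_ne_zero (hk m))]
    exact m.2
  have hlt : ∀ m : Fin (r k), Nat.find (hex m) < k := by
    intro m
    have h1 : Nat.find (hex m) ≤ k - 1 := by
      apply Nat.find_min'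
      rw [Nat.sub_add_cancel (Nat.pos_of_ne_zero (hk m))]
      exact m.2
    have := hk m
    omega
  refine ⟨fun m => ⟨Nat.find (hex m), hlt m⟩, ?_, fun m => Nat.find_spec (hex m)⟩
  intro j m hjm
  rw [Fin.mk_lt_mk]
  have h1 := Nat.find_spec (hex m)
  have hjm' : (j : ℕ) < m := hjm
  have h2 : Nat.find (hex j) ≤ Nat.find (hex m) := Nat.find_min' _ (by omega)
  rcases h2.lt_or_eq with h | h
  · exact h
  · exfalso
    -- minimality
    obtain ⟨a, ha⟩ : ∃ a, a = Nat.find (hex m) := ⟨_, rfl⟩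
    rw [← ha] at h1 h
    have h3 := (hr a).2
    have h4 : (j : ℕ) < r a := by omega
    have ha0 : a ≠ 0 := by
      rintro rfl
      omega
    have h5 : Nat.find (hex j) ≤ a - 1 := by
      apply Nat.find_min'
      rwa [Nat.sub_add_cancel (Nat.pos_of_ne_zero ha0)]
    omega

/-- pivots (statement of the package EC) -/
def Piv : Prop := ∀ (N : ℕ) (U : Submodule ℚ (Fin N → ℚ)),
  ∃ (p : Fin (finrank ℚ U) → Fin N) (u : Fin (finrank ℚ U) → (Fin N → ℚ)), StrictMono p ∧
    ∀ a, u a ∈ U ∧ u a (p a) ≠ 0 ∧ ∀ i, p a < i → u a i = 0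

theorem le_piv {k N : ℕ} {p : Fin k → Fin N} (hp : StrictMono p) (a : Fin k) : (a : ℕ) ≤ p a := by
  have h1 : ∀ n : ℕ, ∀ h : n < k, n ≤ p ⟨n, h⟩ := by
    intro n
    induction n with
    | zero => intro h; exact Nat.zero_le _
    | succ n ih =>
      intro h
      have h2 := ih (by omega)
      have h3 : p ⟨n, by omega⟩ < p ⟨n + 1, h⟩ := hp (by rw [Fin.mk_lt_mk]; omega)
      have h4 : ((p ⟨n, by omega⟩ : Fin N) : ℕ) < p ⟨n + 1, h⟩ := h3
      omega
  exact h1 a a.2

/-- comparison of two sums -/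
theorem sum_cmp (R A : ℕ) (F : ℕ → ℂ) (c : Fin R → ℂ) :
    ∑ l ∈ Finset.range A, F l * (if h : l < R then c ⟨l, h⟩ else 0) =
      ∑ l : Fin R, (if (l : ℕ) < A then F l else 0) * c l := by
  have h1 : ∑ l ∈ Finset.range A, F l * (if h : l < R then c ⟨l, h⟩ else 0) =
      ∑ l ∈ Finset.range A, (if l ∈ Finset.range R then
        F l * (if h : l < R then c ⟨l, h⟩ else 0) else 0) := by
    refine Finset.sum_congr rfl fun l _ => ?_
    by_cases h : l < R
    · rw [if_pos (Finset.mem_range.2 h)]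
    · rw [if_neg (fun h' => h (Finset.mem_range.1 h')), dif_neg h, mul_zero]
  rw [h1, Finset.sum_ite_mem, Finset.inter_comm, ← Finset.sum_ite_mem,
    ← Fin.sum_univ_eq_sum_range (n := R) (f := fun l => if l ∈ Finset.range A then
        F l * (if h : l < R then c ⟨l, h⟩ else 0) else 0)]
  refine Finset.sum_congr rfl fun l _ => ?_
  by_cases h : (l : ℕ) < A
  · rw [if_pos (Finset.mem_range.2 h), if_pos h, dif_pos l.2]
  · rw [if_neg (fun h' => h (Finset.mem_range.1 h')), if_neg h, zero_mul]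

/-- the derivation of one value -/
theorem der_val {D : Derivation ℚ ℂ ℂ} {s : ℕ → ℂ} {R M : ℕ} {c : Fin R → ℂ}
    (hD : ∀ l < M, D (s l) = if h : l < R then c ⟨l, h⟩ else 0) {A : ℕ} (hA : A ≤ M) (q : ℚ) (e : ℕ) :
    D ((q : ℂ) * ∑ l ∈ Finset.range A, s l ^ e) =
      ∑ l : Fin R, (if (l : ℕ) < A then (q : ℂ) * (e : ℂ) * s l ^ (e - 1) else 0) * c l := by
  have hq : D (q : ℂ) = 0 := D.map_algebraMap q
  rw [Derivation.leibniz, hq, smul_zero, add_zero, map_sum, smul_eq_mul,
    ← sum_cmp R A (fun l => (q : ℂ) * (e : ℂ) * s l ^ (e - 1)) c, Finset.mul_sum]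
  refine Finset.sum_congr rfl fun l hl => ?_
  rw [Derivation.leibniz_pow, hD l (lt_of_lt_of_le (Finset.mem_range.1 hl) hA), smul_eq_mul,
    nsmul_eq_mul]
  ring

/-- a rational subspace of dimension `k` contains `r k` elements with algebraically independent values -/
theorem rk (hEC : Piv) (r e : ℕ → ℕ) (hr0 : r 0 = 0)
    (hr : ∀ d, r d ≤ r (d + 1) ∧ r (d + 1) ≤ r d + 1) (he : StrictMono e) (he0 : ∀ i, 0 < e i)
    (s : ℕ → ℂ) (hs : ∀ n, s n ∉ cF (s '' {j | j < n})) (N : ℕ) (U : Submodule ℚ (Fin N → ℚ)) :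
    ∃ f : Fin (r (finrank ℚ U)) → (Fin N → ℚ), (∀ a, f a ∈ U) ∧
      AlgebraicIndependent ℚ (fun a => ∑ i : Fin N, ((f a i : ℚ) : ℂ) *
        ∑ l ∈ Finset.range (r (i + 1)), s l ^ e i) := by
  classical
  obtain ⟨p, u, hp, hu⟩ := hEC N U
  obtain ⟨α, hα, hα2⟩ := first hr0 hr (finrank ℚ U)
  have hmono := r_mono hr
  have hpl := le_piv hp
  refine ⟨fun a => u (α a), fun a => (hu _).1, ?_⟩
  generalize hR : r (finrank ℚ U) = R at *
  -- the polynomials
  obtain ⟨G, hG⟩ : ∃ G : Fin R → Fin R → ℂ[X], G = fun (j l : Fin R) => ∑ i : Fin N,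
      if (l : ℕ) < r (i + 1) then C (((u (α j) i : ℚ) : ℂ) * (e i : ℂ)) * X ^ (e i - 1) else 0 :=
    ⟨_, rfl⟩
  have hcoef : ∀ (j l : Fin R) (m : ℕ), (G j l).coeff m = ∑ i : Fin N,
      if (l : ℕ) < r (i + 1) ∧ m = e i - 1 then ((u (α j) i : ℚ) : ℂ) * (e i : ℂ) else 0 := by
    intro j l m
    rw [hG, Polynomial.finsetSum_coeff]
    refine Finset.sum_congr rfl fun i _ => ?_
    by_cases h1 : (l : ℕ) < r (i + 1)
    · rw [if_pos h1, Polynomial.coeff_C_mul, Polynomial.coeff_X_pow]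
      by_cases h2 : m = e i - 1
      · rw [if_pos h2, if_pos ⟨h1, h2⟩, mul_one]
      · rw [if_neg h2, if_neg (fun h => h2 h.2), mul_zero]
    · rw [if_neg h1, if_neg (fun h => h1 h.1), Polynomial.coeff_zero]
  have hinj : ∀ i i' : Fin N, e i - 1 = e i' - 1 → i = i' := by
    intro i i' h
    have h1 := he0 i
    have h2 := he0 i'
    apply Fin.ext
    apply he.injective
    omega
  have hpiv : ∀ j m : Fin R, (G j m).coeff (e (p (α m)) - 1) =
      if (m : ℕ) < r ((p (α m) : ℕ) + 1) then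
        ((u (α j) (p (α m)) : ℚ) : ℂ) * (e (p (α m)) : ℂ) else 0 := by
    intro j m
    rw [hcoef, Finset.sum_eq_single (p (α m))]
    · simp
    · intro i _ hi
      rw [if_neg]
      rintro ⟨-, h⟩
      exact hi (hinj _ _ h).symm
    · intro h
      exact absurd (Finset.mem_univ _) h
  have hdet : (Matrix.of fun (a j : Fin R) => (G a j).eval (s j)).det ≠ 0 := by
    refine tri R G (fun m => e (p (α m)) - 1) ?_ ?_ ?_ (fun j => s j) ?_
    · intro a b m
      rw [hcoef, ← mem_algebraicClosure_iff (F := ℚ) (E := ℂ)]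
      refine sum_mem fun i _ => ?_
      split_ifs
      · rw [mem_algebraicClosure_iff]
        exact (isAlgebraic_algebraMap (u (α a) i)).mul (isAlgebraic_natCast _)
      · exact zero_mem _
    · intro m
      rw [hpiv, if_pos]
      · refine mul_ne_zero ?_ ?_
        · exact_mod_cast (hu (α m)).2.1
        · have := he0 (p (α m))
          exact_mod_cast this.ne'
      · have h1 := hα2 m
        have h2 := hmono (Nat.add_le_add_right (hpl (α m)) 1)
        exact lt_of_lt_of_le h1 h2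
    · intro j m hjm
      rw [hpiv]
      have h1 : α j < α m := hα hjm
      split_ifs
      · rw [(hu (α j)).2.2 _ (hp h1)]
        simp
      · rfl
    · intro i hcon
      apply hs i
      refine mono ?_ hcon
      rintro _ ⟨j, hj, rfl⟩
      exact ⟨j, hj, rfl⟩
  -- derivations
  have key : AlgebraicIndependent (⊥ : IntermediateField ℚ ℂ) (fun a : Fin R =>
      ∑ i : Fin N, ((u (α a) i : ℚ) : ℂ) * ∑ l ∈ Finset.range (r (i + 1)), s l ^ e i) := by
    apply algInd_of_der
    intro v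
    obtain ⟨c, hc⟩ : ∃ c : Fin R → ℂ,
        c = (Matrix.of fun (a j : Fin R) => (G a j).eval (s j))⁻¹.mulVec v := ⟨_, rfl⟩
    have hc2 : (Matrix.of fun (a j : Fin R) => (G a j).eval (s j)).mulVec c = v := by
      rw [hc, Matrix.mulVec_mulVec, Matrix.mul_nonsing_inv _ (isUnit_iff_ne_zero.2 hdet),
        Matrix.one_mulVec]
    obtain ⟨D, hD⟩ := dual hs (r N) (fun l => if h : l < R then c ⟨l, h⟩ else 0)
    refine ⟨D, ?_, ?_⟩
    · intro w hw
      obtain ⟨q, rfl⟩ := IntermediateField.mem_bot.1 hw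
      exact D.map_algebraMap q
    · intro a
      rw [← hc2, map_sum, Matrix.mulVec, dotProduct]
      rw [Finset.sum_congr rfl fun i _ => der_val hD (hmono i.2) (u (α a) i) (e i), Finset.sum_comm]
      refine Finset.sum_congr rfl fun l _ => ?_
      rw [← Finset.sum_mul, Matrix.of_apply, hG, Polynomial.eval_finsetSum]
      congr 1
      refine Finset.sum_congr rfl fun i _ => ?_
      split_ifs
      · simp
      · simp
  exact key.restrictScalars (FaithfulSMul.algebraMap_injective ℚ (⊥ : IntermediateField ℚ ℂ))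

end Pool.Agent.Helper78.AL
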