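import Pool.Agent.Helper78.EC.Use

/-! # Alternants: sums of polynomials at independent numbers -/

set_option autoImplicit false

namespace Pool.Agent.Helper78.AL

open Pool.Agent.Helper78.EC.Use Set Polynomial

/-- the field generated by `S`, algebraically closed -/
noncomputable def cF (S : Set ℂ) : IntermediateField ℚ ℂ :=
  (algebraicClosure (IntermediateField.adjoin ℚ S) ℂ).restrictScalars ℚ

theorem mem_cF {S : Set ℂ} {z : ℂ} : z ∈ cF S ↔ IsAlgebraic (IntermediateField.adjoin ℚ S) z := by
  rw [cF, IntermediateField.mem_restrictScalars, mem_algebraicClosure_iff]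

theorem alg_mem {S : Set ℂ} {z : ℂ} (h : IsAlgebraic ℚ z) : z ∈ cF S := by
  rw [mem_cF]
  exact h.tower_top _

theorem self_mem {S : Set ℂ} {z : ℂ} (h : z ∈ S) : z ∈ cF S := by
  rw [mem_cF]
  exact isAlgebraic_algebraMap (⟨z, IntermediateField.subset_adjoin ℚ S h⟩ :
    IntermediateField.adjoin ℚ S)

/-- derivations kill the closure of what they kill -/
theorem der_cF {S : Set ℂ} {D : Derivation ℚ ℂ ℂ} (hD : ∀ s ∈ S, D s = 0) {z : ℂ} (hz : z ∈ cF S) :
    D z = 0 :=
  kills_alg (kills_adjoin hD) (mem_cF.1 hz)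

theorem der_alg {D : Derivation ℚ ℂ ℂ} {z : ℂ} (hz : IsAlgebraic ℚ z) : D z = 0 :=
  der_cF (S := ∅) (by simp) (alg_mem hz)

/-- the derivation of a value of a polynomial -/
theorem der_eval {D : Derivation ℚ ℂ ℂ} {P : ℂ[X]} (hP : ∀ m, D (P.coeff m) = 0) (z : ℂ) :
    D (P.eval z) = (derivative P).eval z * D z := by
  rw [Polynomial.derivative_eval, Polynomial.eval_eq_sum, Polynomial.sum, Polynomial.sum, map_sum,
    Finset.sum_mul]
  refine Finset.sum_congr rfl fun m _ => ?_
  rw [Derivation.leibniz, hP, smul_zero, add_zero, Derivation.leibniz_pow]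
  simp only [smul_eq_mul, nsmul_eq_mul]
  ring

theorem idem {S : Set ℂ} {z : ℂ} (h : IsAlgebraic (cF S) z) : z ∈ cF S := by
  rw [mem_cF]
  have h1 : Algebra.IsAlgebraic (IntermediateField.adjoin ℚ S)
      (algebraicClosure (IntermediateField.adjoin ℚ S) ℂ) := algebraicClosure.isAlgebraic _ _
  have h2 : IsAlgebraic (algebraicClosure (IntermediateField.adjoin ℚ S) ℂ) z := h
  exact h2.restrictScalars _

/-- a root of a nonzero polynomial with coefficients in the closure -/
theorem root_mem {S : Set ℂ} {R : ℂ[X]} (hR : ∀ m, R.coeff m ∈ cF S) (h0 : R ≠ 0) {z : ℂ}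
    (hz : R.eval z = 0) : z ∈ cF S := by
  have h1 : R ∈ Polynomial.lifts (algebraMap (cF S) ℂ) := by
    rw [Polynomial.lifts_iff_coeff_lifts]
    intro m
    exact ⟨⟨R.coeff m, hR m⟩, rfl⟩
  obtain ⟨R', hR'⟩ := (Polynomial.mem_lifts _).1 h1
  refine idem ⟨R', ?_, ?_⟩
  · rintro rfl
    rw [Polynomial.map_zero] at hR'
    exact h0 hR'.symm
  · rw [Polynomial.aeval_def, ← Polynomial.eval_map, hR', hz]

theorem mono {S S' : Set ℂ} (h : S ⊆ S') {z : ℂ} (hz : z ∈ cF S) : z ∈ cF S' := by
  rw [mem_cF] at hz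
  apply idem
  have h2 : IntermediateField.adjoin ℚ S ≤ cF S' :=
    IntermediateField.adjoin_le_iff.2 fun x hx => self_mem (h hx)
  obtain ⟨P, hP0, hP⟩ := hz
  refine ⟨P.map (IntermediateField.inclusion h2).toRingHom, ?_, ?_⟩
  · rwa [Ne, Polynomial.map_eq_zero]
  · rw [Polynomial.aeval_def, Polynomial.eval₂_map]
    exact hP

/-- **Triangular alternants**: values of polynomials at independent numbers -/
theorem tri : ∀ (n : ℕ) (G : Fin n → Fin n → ℂ[X]) (d : Fin n → ℕ),
    (∀ a b m, IsAlgebraic ℚ ((G a b).coeff m)) → (∀ m, (G m m).coeff (d m) ≠ 0) →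
    (∀ j m, j < m → (G j m).coeff (d m) = 0) →
    ∀ r : Fin n → ℂ, (∀ i, r i ∉ cF (r '' {j | j < i})) →
    (Matrix.of fun a j => (G a j).eval (r j)).det ≠ 0 := by
  intro n
  induction n with
  | zero =>
    intro G d _ _ _ r _
    simp
  | succ n ih =>
    intro G d hG hd1 hd2 r hr hdet
    -- the minors
    have hmin : ∀ a : Fin (n + 1), (Matrix.of fun (b : Fin n) (j : Fin n) =>
        (G (a.succAbove b) j.castSucc).eval (r j.castSucc)).det ∈ cF (r '' {j | j < Fin.last n}) := by
      intro a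
      rw [Matrix.det_apply]
      refine sum_mem fun σ _ => ?_
      rw [Units.smul_def]
      refine zsmul_mem (prod_mem fun j _ => ?_) _
      rw [Matrix.of_apply, Polynomial.eval_eq_sum]
      refine sum_mem fun m _ => mul_mem (alg_mem (hG _ _ m)) (pow_mem (self_mem ?_) m)
      exact ⟨j.castSucc, Fin.castSucc_lt_last j, rfl⟩
    have hlast : (Matrix.of fun (b : Fin n) (j : Fin n) =>
        (G ((Fin.last n).succAbove b) j.castSucc).eval (r j.castSucc)).det ≠ 0 := by
      refine ih (fun b j => G ((Fin.last n).succAbove b) j.castSucc) (fun b => d b.castSucc)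
        (fun b j m => hG _ _ m) ?_ ?_ (fun j => r j.castSucc) ?_
      · intro m
        simp only [Fin.succAbove_last]
        exact hd1 _
      · intro j m hjm
        simp only [Fin.succAbove_last]
        exact hd2 _ _ (Fin.castSucc_lt_castSucc_iff.2 hjm)
      · intro i hcon
        apply hr i.castSucc
        refine mono ?_ hcon
        rintro _ ⟨j, hj, rfl⟩
        exact ⟨j.castSucc, Fin.castSucc_lt_castSucc_iff.2 hj, rfl⟩
    -- the polynomial
    obtain ⟨c, hc⟩ : ∃ c : Fin (n + 1) → ℂ, c = fun a : Fin (n + 1) => (-1) ^ ((a : ℕ) + n) *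
        (Matrix.of fun (b : Fin n) (j : Fin n) =>
          (G (a.succAbove b) j.castSucc).eval (r j.castSucc)).det := ⟨_, rfl⟩
    have hR0 : ∑ a, C (c a) * G a (Fin.last n) ≠ 0 := by
      intro h0
      have h1 := congrArg (fun P : ℂ[X] => P.coeff (d (Fin.last n))) h0
      simp only [Polynomial.finsetSum_coeff, Polynomial.coeff_C_mul, Polynomial.coeff_zero] at h1
      rw [Fin.sum_univ_castSucc, Finset.sum_eq_zero, zero_add] at h1
      · rcases mul_eq_zero.1 h1 with h2 | h2
        · rw [hc] at h2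
          rcases mul_eq_zero.1 h2 with h3 | h3
          · exact absurd h3 (pow_ne_zero _ (by norm_num))
          · exact hlast h3
        · exact hd1 _ h2
      · intro b _
        rw [hd2 _ _ (Fin.castSucc_lt_last b), mul_zero]
    apply hr (Fin.last n)
    refine root_mem (R := ∑ a, C (c a) * G a (Fin.last n)) ?_ hR0 ?_
    · intro m
      rw [Polynomial.finsetSum_coeff]
      refine sum_mem fun a _ => ?_
      rw [Polynomial.coeff_C_mul, hc]
      exact mul_mem (mul_mem (pow_mem (neg_mem (one_mem _)) _) (hmin a)) (alg_mem (hG a _ m))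
    · rw [Polynomial.eval_finsetSum, ← hdet, Matrix.det_succ_column _ (Fin.last n)]
      refine Finset.sum_congr rfl fun a _ => ?_
      rw [Polynomial.eval_mul, Polynomial.eval_C, hc, Matrix.of_apply, Fin.val_last]
      have e : (Matrix.of fun a j => (G a j).eval (r j)).submatrix a.succAbove (Fin.last n).succAbove =
          Matrix.of fun (b : Fin n) (j : Fin n) => (G (a.succAbove b) j.castSucc).eval (r j.castSucc) := by
        ext b j
        simp [Fin.succAbove_last]
      rw [e]
      ring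

/-- a derivation which kills a set and is one at a number outside its closure -/
theorem der_one {S : Set ℂ} {z : ℂ} (hz : z ∉ cF S) :
    ∃ D : Derivation ℚ ℂ ℂ, (∀ s ∈ S, D s = 0) ∧ D z = 1 := by
  have h1 : AlgebraicIndependent (cF S) (fun _ : Unit => z) :=
    algebraicIndependent_unique_type_iff.2 fun h => hz (idem h)
  obtain ⟨D, hD1, hD2⟩ := exists_der h1 (fun _ => (1 : ℂ))
  exact ⟨D, fun s hs => hD1 s (self_mem hs), hD2 ()⟩

/-- derivations with given values -/
theorem dual {s : ℕ → ℂ} (hs : ∀ n, s n ∉ cF (s '' {j | j < n})) (n : ℕ) (c : ℕ → ℂ) :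
    ∃ D : Derivation ℚ ℂ ℂ, ∀ l < n, D (s l) = c l := by
  induction n with
  | zero => exact ⟨0, fun l hl => absurd hl (Nat.not_lt_zero l)⟩
  | succ n ih =>
    obtain ⟨D, hD⟩ := ih
    obtain ⟨D', hD'1, hD'2⟩ := der_one (hs n)
    refine ⟨D + (c n - D (s n)) • D', fun l hl => ?_⟩
    rw [Derivation.add_apply, Derivation.smul_apply, smul_eq_mul]
    rcases Nat.lt_succ_iff_lt_or_eq.1 hl with h | h
    · rw [hD l h, hD'1 _ ⟨l, h, rfl⟩, mul_zero, add_zero]
    · subst h
      rw [hD'2]
      ring

end Pool.Agent.Helper78.AL
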